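import Mathlib
import Pool.Agent.Run7.h756.CC.Lin

/-!
# Circles of multipliers at several scales, with several constant terms

For every `R` and `k` there are `C` and `B` such that for every `A`, any sufficiently large scales `N_1, …, N_R`,
any integers `c_i` with `|c_i| ≤ N_i / 60`, every finite set `V` and any `R` injective maps `g_i` of `V` into the
integers from `1` to `A` which are prime to `c_i`: all members of `V` with at most `C` exceptions can be arranged in
`m R` disjoint circles (`m 1 = 3`, `m 2 = 10`, `m 3 = 36`) such that for any `k` successive members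
`v_1, …, v_k` of a circle and each `i` the numbers `g_i(v_1) n + c_i, …, g_i(v_k) n + c_i` are all prime for at least
`N_i / (log N_i) ^ B` of the `1 ≤ n ≤ N_i`. (The question is about the multipliers `1`, `2` and the constant term
`1`.)
-/

set_option autoImplicit false

namespace Pool.Agent.Results.MP_39a890_nt.CirclesOfMultipliers

open Filter Finset
open Pool.Agent.Run7.h756.CC
open Pool.Agent.Y827.GS (cntN Adf)

/-- the number of the `1 ≤ n ≤ N` such that `v n + c` is a (positive) prime for all `v` in `F` -/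
def count (c : ℤ) (F : Finset ℕ) (N : ℕ) : ℕ :=
  ((Icc 1 N).filter (fun n : ℕ => ∀ v ∈ F, ((v : ℤ) * n + c).toNat.Prime)).card

/-- `m 0 = 1` and `m (R + 1) = ⌊18 * m R / 5⌋`: the numbers `1, 3, 10, 36, 129, ...` -/
def m : ℕ → ℕ
  | 0 => 1
  | R + 1 => 18 * m R / 5

theorem m_eq (R : ℕ) : m R = Pool.Agent.R493.SI.mR R := by
  induction R with
  | zero => rfl
  | succ R ih =>
    show 18 * m R / 5 = 18 * Pool.Agent.R493.SI.mR R / 5
    rw [ih]

/-- All members of `V` with at most `C` exceptions are arranged in `D` disjoint circles (lists without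
repetitions, read cyclically) such that any `k` successive members of a circle (all members, if there are fewer
than `k`) form a set with the property `G`. -/
def Circles (V : Finset ℕ) (D C k : ℕ) (G : Finset ℕ → Prop) : Prop :=
  ∃ e : Fin D → List ℕ, (∀ i, (e i).Nodup) ∧ (∀ i j, i ≠ j → List.Disjoint (e i) (e j)) ∧
    (∀ i, ∀ v ∈ e i, v ∈ V) ∧ (V.filter (fun v => ∀ i, v ∉ e i)).card ≤ C ∧
    ∀ i j, e i ≠ [] → G ((((e i).rotate j).take k).toFinset)

/-- **Circles of multipliers.** -/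
theorem result (R k : ℕ) (hk : 1 ≤ k) : ∃ C B : ℕ, ∀ A : ℕ, ∃ N₀ : ℕ, ∀ N : Fin R → ℕ, (∀ i, N₀ ≤ N i) →
    ∀ c : Fin R → ℤ, (∀ i, 60 * |c i| ≤ N i) → ∀ (V : Finset ℕ) (g : Fin R → ℕ → ℕ),
    (∀ i, Set.InjOn (g i) V) → (∀ i, ∀ v ∈ V, 1 ≤ g i v ∧ g i v ≤ A ∧ IsCoprime (g i v : ℤ) (c i)) →
    Circles V (m R) C k (fun w => ∀ i, (N i : ℝ) / (Real.log (N i)) ^ B ≤
      (count (c i) (w.image (g i)) (N i) : ℝ)) := by
  classical
  obtain ⟨C, B, h⟩ := scale_circles R k hk
  refine ⟨C, B, fun A => ?_⟩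
  obtain ⟨N₀, hN₀⟩ := h A
  refine ⟨N₀, fun N hN c hc V g hg hgA => ?_⟩
  obtain ⟨e, he1, he2, he3, he4, he5⟩ := hN₀ N hN V (fun i v => ((g i v : ℤ), c i))
    (fun i v hv w hw hvw => by
      simp only [Prod.mk.injEq, Nat.cast_inj, and_true] at hvw
      exact hg i hv hw hvw)
    (fun i v hv => by
      obtain ⟨h1, h2, h3⟩ := hgA i v hv
      have h4 := hc i
      have h5 := abs_nonneg (c i)
      refine ⟨by show (g i v : ℤ) ≠ 0; omega, ?_, ?_, h3, ?_⟩
      · show |(g i v : ℤ)| ≤ A
        rw [abs_of_nonneg (by positivity)]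
        exact_mod_cast h2
      · show |c i| ≤ N i
        linarith
      · intro t ht1 ht2
        have h6 : (1 : ℝ) ≤ (((g i v : ℤ)) : ℝ) := by exact_mod_cast h1
        have h7 : (60 : ℝ) * |((c i : ℤ) : ℝ)| ≤ N i := by exact_mod_cast h4
        have h8 := neg_abs_le ((c i : ℤ) : ℝ)
        have hN0 : (0 : ℝ) ≤ (N i : ℝ) := Nat.cast_nonneg _
        have ht0 : 0 ≤ t := le_trans (by positivity) ht1
        have h9 : t ≤ (((g i v : ℤ)) : ℝ) * t := le_mul_of_one_le_left ht0 h6
        show (N i : ℝ) / 24 ≤ (((g i v : ℤ)) : ℝ) * t + ((c i : ℤ) : ℝ)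
        linarith)
    (fun i p hp hpB => by
      by_cases hpc : (p : ℤ) ∣ c i
      · refine ⟨1, fun v hv hd => ?_⟩
        have h1 : (p : ℤ) ∣ (g i v : ℤ) := by
          have h2 : (p : ℤ) ∣ (g i v : ℤ) * 1 + c i := hd
          rw [mul_one] at h2
          exact (Int.dvd_add_left hpc).1 h2
        have h2 := ((hgA i v hv).2.2).isUnit_of_dvd' h1 hpc
        exact (Nat.prime_iff_prime_int.1 hp).not_isUnit h2
      · refine ⟨0, fun v hv hd => hpc ?_⟩
        have h2 : (p : ℤ) ∣ (g i v : ℤ) * 0 + c i := hd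
        rwa [mul_zero, zero_add] at h2)
  rw [m_eq]
  refine ⟨e, he1, he2, he3, he4, fun j l hne i => ?_⟩
  have h1 := he5 i j l hne
  unfold Oft at h1
  refine h1.trans ?_
  rw [Nat.cast_le]
  unfold cntN count
  refine card_le_card ?_
  intro n hn
  obtain ⟨h2, h3⟩ := mem_filter.1 hn
  refine mem_filter.2 ⟨h2, fun u hu => ?_⟩
  obtain ⟨v, hv, rfl⟩ := mem_image.1 hu
  exact h3 _ (mem_image_of_mem _ hv)

end Pool.Agent.Results.MP_39a890_nt.CirclesOfMultipliers
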