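import Mathlib
import Pool.Agent.Run7.h166.TS.Mul2

/-!
# Any set of multipliers in three lists, at every scale

`q` and `p = 2 q - 1` are primes if and only if `n + 1` and `2 n + 1` are primes for `n = q - 1`. The question is
about every scale: whether for every large `N` there is such an `n` of the order of `N`. Say that positive
integers `v_1, …, v_k` occur together at the scale `N`, for the integer `c`, if `v_1 n + c, …, v_k n + c` are all
prime for at least `N ^ (1 - η)` of the `n ≤ N`.

For every `k` there is `C` such that for all `A` and `η > 0`, for EVERY sufficiently large `N`, every integer `c`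
with `|c| ≤ N / 60` and EVERY set `V` of positive integers up to `A` prime to `c`, all members of `V`
with at most `C` exceptions can be arranged in THREE lists such that any at most `k` successive members of a list
occur together at the scale `N`. The number `C` of exceptions depends neither on the set and its size nor on `A`,
`η`, `N` and `c`. There is no local condition. The question is about `c = 1` and the pair `1, 2`; the
prime `k`-tuples conjecture predicts that every arrangement of `V` in one list has this property.

So at every scale the graph of all pairs `(s, t)` of multipliers for which there are primes `p, q` of order `N`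
with `(p - c) / (q - c) = s / t` contains three disjoint paths through all but `C` elements of any set `V`. Known
results give one of the first three iterates of `q ↦ 2 q - 1`, or almost all exponents `k` up to a factor
`1, 2, 3`.

Proof. Coloured Maynard-Tao theorem with a constant above one quarter, uniform in constant terms as large as the
variable (starting files, `Pool.Agent.TH899.UG.Uni.exactU`): of any `4 S` long blocks of forms more than
`S + 3 k` are hit by primes. Lists which begin and end with long cliques are joined as long as there are four of
them, and new cliques are extracted as long as there are many multipliers left.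
-/

set_option autoImplicit false

namespace Pool.Agent.Results.MP_39a890_nt.MultipliersEveryScale

open Filter Finset

open Classical in
/-- `v n + c`, `v ∈ w`, are prime for at least `N ^ (1 - η)` of the `n ≤ N` -/
def Together (N : ℕ) (η : ℝ) (c : ℤ) (w : Finset ℕ) : Prop :=
  (N : ℝ) ^ (1 - η) ≤ (((Icc 1 N).filter (fun n : ℕ => ∀ v ∈ w, ((v : ℤ) * n + c).toNat.Prime)).card : ℝ)

/-- **Every set of multipliers in three lists, at every scale.** -/
theorem result (k : ℕ) : ∃ C : ℕ, ∀ (A : ℕ) (η : ℝ), 0 < η → ∀ᶠ N : ℕ in atTop,
    ∀ c : ℤ, 60 * |c| ≤ N → ∀ V : Finset ℕ, (∀ v ∈ V, 1 ≤ v ∧ v ≤ A ∧ IsCoprime (v : ℤ) c) →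
    ∃ e : Fin 3 → List ℕ, (∀ i, (e i).Nodup) ∧ (∀ i j, i ≠ j → List.Disjoint (e i) (e j)) ∧
      (∀ i, ∀ x ∈ e i, x ∈ V) ∧ (∃ E : Finset ℕ, E.card ≤ C ∧ ∀ x ∈ V, (∀ i, x ∉ e i) → x ∈ E) ∧
      ∀ i, ∀ w : List ℕ, w <:+: e i → w ≠ [] → w.length ≤ k → Together N η c w.toFinset := by
  classical
  obtain ⟨C, hC⟩ := Run7.h166.TS.mulN k
  refine ⟨C, fun A η hη => ?_⟩
  filter_upwards [hC A η hη] with N hN c hc V hV
  obtain ⟨e, h1, h2, h3, h4, h5⟩ := hN c hc V hV
  refine ⟨e, h1, h2, h3, h4, fun i w hw hw0 hwk => ?_⟩
  refine le_trans (h5 i w hw hw0 hwk) ?_
  rw [Nat.cast_le]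
  refine card_le_card (monotone_filter_right _ ?_)
  intro n _ hn v hv
  exact hn _ (mem_image_of_mem _ hv)

end Pool.Agent.Results.MP_39a890_nt.MultipliersEveryScale
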