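import Mathlib
import Pool.Agent.Run7.h965.Core
import Pool.Agent.Run7.h965.Wnd2

set_option autoImplicit false

namespace Pool.Agent.Results.MP_39a890_nt.WindowsThirteenFifths

open Filter

/-- For every `ε > 0` there is `m` such that for every `η > 0` and all large `N` at least
`N ^ (1 - η)` integers `n` with `N ≤ n ≤ (13 / 5 + ε) N` have the form `n = c p`,
`n + 1 = (c + 1) q` with `1 ≤ c < m` and primes `p`, `q`. The question asks for `c = 1` and the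
factor `2`. -/
theorem result : ∀ ε : ℝ, 0 < ε → ∃ m : ℕ, ∀ η : ℝ, 0 < η → ∃ N₀ : ℕ, ∀ N : ℕ, N₀ ≤ N →
    (N : ℝ) ^ (1 - η) ≤ ({n : ℕ | N ≤ n ∧ (n : ℝ) ≤ (13 / 5 + ε) * N ∧ ∃ c p q : ℕ,
      1 ≤ c ∧ c < m ∧ p.Prime ∧ q.Prime ∧ n = c * p ∧ n + 1 = (c + 1) * q}.ncard : ℝ) := by
  intro ε hε
  obtain ⟨m, hm⟩ := Pool.Agent.Run7.h965.window_of Pool.Agent.Run7.h965.coreLoc ε hε
  refine ⟨m, fun η hη => ?_⟩
  obtain ⟨N₀, hN₀⟩ := eventually_atTop.1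
    ((tendsto_natCast_atTop_atTop (R := ℝ)).eventually (hm η hη))
  refine ⟨N₀, fun N hN => (hN₀ N hN).trans (le_of_eq ?_)⟩
  congr 2
  ext n
  unfold Pool.Agent.Run7.h965.TwoSet
  simp only [Set.mem_ofPred_eq, Nat.cast_le]

end Pool.Agent.Results.MP_39a890_nt.WindowsThirteenFifths
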